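import Pool.Agent.Helper81.RZ.Sch.Mor
import Pool.Agent.Helper94.RZ.Trun

/-!
# Project RZ (MP_77656e_ag), the layer of schemes: complexes of vector bundles from complexes of
lattices (S4)
-/

set_option autoImplicit false

open AlgebraicGeometry CategoryTheory TopologicalSpace Opposite

namespace Pool.Agent.Helper81.RZ

open Pool.Agent.Helper17.RZ Pool.Agent.Helper17.RZ.Sch Pool.Agent.Helper94.RZ

universe u

noncomputable section

variable {k : Type u} [Field k] (X : CSch.{u} k)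

/-- a linear map which preserves the sections over the affine open subsets of the covering is the germ
of a morphism -/
theorem mor_of_lat (hD : DualBasis.{u}) (hM : MorEx.{u}) (E F : X.Z.Modules) (hE : IsVB E)
    (hF : IsVB F) (φ : X.st E →ₗ[X.K] X.st F)
    (H : ∀ j : X.I, ∀ v ∈ X.sec E (X.U j), φ v ∈ X.sec F (X.U j)) :
    ∃ g : E ⟶ F, ∀ v, X.sm g v = φ v := by
  apply hM k X E F hE hF φ
  intro j W hW v hv
  obtain ⟨x0, hx0⟩ := X.ne j
  obtain ⟨ι, _, x, ξ, hx, hξ, hsum⟩ := hD k X E hE (X.U j) (X.aff j) (X.eta_mem hx0)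
  rw [hsum v, map_sum]
  refine Submodule.sum_mem _ fun l _ => ?_
  have h1 : φ (x l) ∈ X.sec F W := X.sec_mono F hW (H j _ (hx l))
  have h2 : ξ l v ∈ X.OO W := hξ l W hW v hv
  rw [map_smul]
  exact (X.sec F W).smul_mem (⟨ξ l v, h2⟩ : X.OO W) h1

theorem Us_singleton (j : X.I) : X.Us {j} = X.U j := by
  unfold CSch.Us
  rw [Finset.inf_singleton]

variable {X}

/-- the vector space of degree `i` -/
abbrev Vi {a : X.I → X.K} {h : IsModel X a} (Y : Cplx (pv X a h)) (i : ℤ) : Submodule X.K Y.V :=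
  LinearMap.range (Y.pr i)

theorem pr_of_mem {a : X.I → X.K} {h : IsModel X a} (Y : Cplx (pv X a h)) (i : ℤ) (v : Y.V)
    (hv : v ∈ Vi Y i) : Y.pr i v = v := by
  obtain ⟨w, rfl⟩ := hv
  rw [pr_pr_apply, if_pos rfl]

theorem pr_of_mem_ne {a : X.I → X.K} {h : IsModel X a} (Y : Cplx (pv X a h)) (i j : ℤ) (hij : j ≠ i)
    (v : Y.V) (hv : v ∈ Vi Y i) : Y.pr j v = 0 := by
  obtain ⟨w, rfl⟩ := hv
  rw [pr_pr_apply, if_neg hij]

/-- the differential between the terms -/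
def dI {a : X.I → X.K} {h : IsModel X a} (Y : Cplx (pv X a h)) (i : ℤ) : Vi Y i →ₗ[X.K] Vi Y (i + 1) :=
  Y.d.restrict (fun v hv => ⟨Y.d v, by rw [← d_pr_apply, pr_of_mem Y i v hv]⟩)

theorem dI_coe {a : X.I → X.K} {h : IsModel X a} (Y : Cplx (pv X a h)) (i : ℤ) (v : Vi Y i) :
    (dI Y i v : Y.V) = Y.d v := rfl

/-- S4 -/
theorem essS (hD : DualBasis.{u}) (hS : SheafEx.{u}) (hM : MorEx.{u}) : EssS.{u} := by
  intro k _ X a h Y
  have hEx : ∀ i : ℤ, ∃ (E : X.Z.Modules) (e : X.st E ≃ₗ[X.K] Vi Y i), IsVB E ∧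
      ∀ σ : Finset X.I, σ.Nonempty → ∀ v, v ∈ X.sec E (X.Us σ) ↔
        e v ∈ subLat ((pv X a h).A σ) (Y.lat σ) (Vi Y i) := by
    intro i
    have he3 : ∀ (σ : Finset X.I), ∀ v, v ∈ Y.lat σ → Y.pr i v ∈ Y.lat σ := fun σ v hv => Y.lat_pr σ i v hv
    have he1 : ∀ v, Y.pr i v ∈ Vi Y i := fun v => ⟨v, rfl⟩
    have he2 : ∀ w ∈ Vi Y i, Y.pr i w = w := fun w hw => pr_of_mem Y i w hw
    apply hS k X a h (Vi Y i) (fun σ => subLat ((pv X a h).A σ) (Y.lat σ) (Vi Y i))
    · intro σ hσ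
      have := Y.lat_fin σ hσ
      exact Module.Finite.of_surjective (toSub ((pv X a h).A σ) (Y.lat σ) (Vi Y i) (Y.pr i) he1 (he3 σ))
        fun w => ⟨ofSub ((pv X a h).A σ) (Y.lat σ) (Vi Y i) w,
          toSub_ofSub ((pv X a h).A σ) (Y.lat σ) (Vi Y i) (Y.pr i) he1 he2 (he3 σ) w⟩
    · intro σ hσ
      have := Y.lat_proj σ hσ
      exact Module.Projective.of_split (ofSub ((pv X a h).A σ) (Y.lat σ) (Vi Y i))
        (toSub ((pv X a h).A σ) (Y.lat σ) (Vi Y i) (Y.pr i) he1 (he3 σ))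
        (LinearMap.ext fun w => toSub_ofSub ((pv X a h).A σ) (Y.lat σ) (Vi Y i) (Y.pr i) he1 he2 (he3 σ) w)
    · intro σ hσ w
      obtain ⟨c, hc, h1⟩ := Y.lat_gen σ hσ (w : Y.V)
      exact ⟨c, hc, h1⟩
    · intro σ τ hσ hστ
      exact (subC Y (Vi Y i) (Y.pr i) 0 he1 he2 he3
        (fun j w hw => by
          obtain ⟨v, rfl⟩ := hw
          rw [pr_pr_apply]
          split_ifs with h
          · subst h
            exact ⟨v, rfl⟩
          · exact Submodule.zero_mem _)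
        (fun w _ => Submodule.zero_mem _) (fun w _ => rfl)
        (fun j w _ => by rw [LinearMap.zero_apply, LinearMap.zero_apply, map_zero])
        (fun σ w _ _ => (Y.lat σ).zero_mem)).lat_loc σ τ hσ hστ
  choose E e hE he using hEx
  -- the differentials
  have hdEx : ∀ i : ℤ, ∃ g : E i ⟶ E (i + 1), ∀ v, X.sm g v = (e (i + 1)).symm (dI Y i (e i v)) := by
    intro i
    obtain ⟨g, hg⟩ := mor_of_lat X hD hM (E i) (E (i + 1)) (hE i) (hE (i + 1))
      ((e (i + 1)).symm.toLinearMap ∘ₗ dI Y i ∘ₗ (e i).toLinearMap) (by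
        intro j v hv
        rw [← Us_singleton X j] at hv ⊢
        rw [he i {j} (Finset.singleton_nonempty j)] at hv
        rw [he (i + 1) {j} (Finset.singleton_nonempty j)]
        change e (i + 1) ((e (i + 1)).symm (dI Y i (e i v))) ∈ _
        rw [LinearEquiv.apply_symm_apply]
        exact Y.lat_d {j} _ hv)
    exact ⟨g, hg⟩
  choose d hd using hdEx
  have hdd : ∀ i, d i ≫ d (i + 1) = 0 := by
    intro i
    apply sm_eq_zero X (hE (i + 1 + 1))
    intro v
    rw [X.sm_comp, hd, hd, LinearEquiv.apply_symm_apply]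
    have : dI Y (i + 1) (dI Y i (e i v)) = 0 := Subtype.ext (d_d_apply Y _)
    rw [this, map_zero]
  have hbd : ∀ i : ℤ, (Y.bd : ℤ) < |i| → Limits.IsZero (E i) := by
    intro i hi
    rw [Limits.IsZero.iff_id_eq_zero]
    apply sm_eq_zero X (hE i)
    intro v
    rw [X.sm_id]
    apply (e i).injective
    rw [map_zero]
    apply Subtype.ext
    have h1 := pr_of_mem Y i _ (e i v).2
    rw [Y.pr_bd i hi, LinearMap.zero_apply] at h1
    exact h1.symm
  let A : VBC X.Z := ⟨CochainComplex.of E d hdd, hE, Y.bd, hbd⟩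
  have hAd : ∀ i v, X.sm (A.C.d i (i + 1)) v = (e (i + 1)).symm (dI Y i (e i v)) := by
    intro i v
    have : A.C.d i (i + 1) = d i := CochainComplex.of_d E d i
    rw [this]
    exact hd i v
  let F : A.G.V →ₗ[X.K] Y.V := DirectSum.toModule X.K ℤ Y.V
    (fun i => (Vi Y i).subtype ∘ₗ (e i).toLinearMap)
  have hF : ∀ i (v : X.st (E i)), F (A.inj i v) = (e i v : Y.V) := by
    intro i v
    change DirectSum.toModule X.K ℤ Y.V _ (DirectSum.lof X.K ℤ (fun i => X.st (A.C.X i)) i v) = _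
    rw [DirectSum.toModule_lof]
    rfl
  let G : Y.V →ₗ[X.K] A.G.V := ∑ i ∈ Finset.Icc (-(Y.bd : ℤ)) Y.bd,
    A.inj i ∘ₗ (e i).symm.toLinearMap ∘ₗ (Y.pr i).rangeRestrict
  have hG : ∀ v, G v = ∑ i ∈ Finset.Icc (-(Y.bd : ℤ)) Y.bd,
      A.inj i ((e i).symm ⟨Y.pr i v, ⟨v, rfl⟩⟩) := by
    intro v
    change (∑ i ∈ Finset.Icc (-(Y.bd : ℤ)) Y.bd,
      A.inj i ∘ₗ (e i).symm.toLinearMap ∘ₗ (Y.pr i).rangeRestrict) v = _
    rw [LinearMap.sum_apply]
    rfl
  have hFG : ∀ v, F (G v) = v := by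
    intro v
    rw [hG, map_sum]
    have h1 : ∀ i ∈ Finset.Icc (-(Y.bd : ℤ)) Y.bd,
        F (A.inj i ((e i).symm ⟨Y.pr i v, ⟨v, rfl⟩⟩)) = Y.pr i v := by
      intro i _
      rw [hF, LinearEquiv.apply_symm_apply]
    rw [Finset.sum_congr rfl h1]
    have h2 := LinearMap.congr_fun Y.pr_sum v
    rw [LinearMap.sum_apply] at h2
    exact h2
  have hGF0 : G ∘ₗ F = LinearMap.id := by
    apply A.ext_inj
    intro i v
    rw [LinearMap.comp_apply, hF, hG, LinearMap.id_apply]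
    by_cases hi : i ∈ Finset.Icc (-(Y.bd : ℤ)) Y.bd
    · rw [Finset.sum_eq_single i]
      · have h1 : (⟨Y.pr i (e i v : Y.V), ⟨_, rfl⟩⟩ : Vi Y i) = e i v :=
          Subtype.ext (pr_of_mem Y i _ (e i v).2)
        rw [h1, LinearEquiv.symm_apply_apply]
      · intro j _ hj
        have h1 : (⟨Y.pr j (e i v : Y.V), ⟨_, rfl⟩⟩ : Vi Y j) = 0 :=
          Subtype.ext (pr_of_mem_ne Y i j hj _ (e i v).2)
        rw [h1, map_zero, map_zero]
      · intro h'
        exact absurd hi h'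
    · have hl : (Y.bd : ℤ) < |i| := by
        rw [Finset.mem_Icc] at hi
        by_contra h'
        exact hi (abs_le.mp (not_lt.mp h'))
      have := X.st_subsingleton (hbd i hl)
      have h0 : v = 0 := Subsingleton.elim _ _
      rw [h0, map_zero]
      refine (Finset.sum_eq_zero fun j _ => ?_).trans (map_zero (A.inj i)).symm
      have h1 : (⟨Y.pr j ((0 : Vi Y i) : Y.V), ⟨_, rfl⟩⟩ : Vi Y j) = 0 :=
        Subtype.ext (map_zero (Y.pr j))
      rw [h1, map_zero, map_zero]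
  let ee : A.G.V ≃ₗ[X.K] Y.V := LinearEquiv.ofLinearMap F G (LinearMap.ext hFG) hGF0
  have hee : ∀ v, ee v = F v := fun v => rfl
  have hprj : ∀ i v, Y.pr i (F v) = (e i (A.prj i v) : Y.V) := by
    intro i v
    have h1 : Y.pr i ∘ₗ F = (Vi Y i).subtype ∘ₗ (e i).toLinearMap ∘ₗ A.prj i := by
      apply A.ext_inj
      intro j w
      change Y.pr i (F (A.inj j w)) = (e i (A.prj i (A.inj j w)) : Y.V)
      rw [hF]
      by_cases hij : j = i
      · subst hij
        rw [A.prj_inj, pr_of_mem Y j _ (e j w).2]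
      · rw [A.prj_inj_ne j i hij, pr_of_mem_ne Y j i (Ne.symm hij) _ (e j w).2, map_zero]
        rfl
    exact LinearMap.congr_fun h1 v
  refine ⟨A, ee, ?_, ?_, ?_⟩
  · intro i v
    rw [hee, hee, A.G_pr, hF, hprj]
  · intro v
    have h1 : F ∘ₗ A.G.d = Y.d ∘ₗ F := by
      apply A.ext_inj
      intro i w
      change F (A.G.d (A.inj i w)) = Y.d (F (A.inj i w))
      rw [A.G_d, hF, hF, hAd, LinearEquiv.apply_symm_apply, dI_coe]
    exact LinearMap.congr_fun h1 v
  · intro σ hσ v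
    rw [hee]
    have h1 : ∀ i, A.prj i v ∈ X.sec (A.C.X i) (X.Us σ) ↔ Y.pr i (F v) ∈ Y.lat σ := by
      intro i
      rw [hprj]
      exact he i σ hσ (A.prj i v)
    simp only [h1]
    constructor
    · intro hv i
      exact Y.lat_pr σ i _ hv
    · intro hv
      have h2 := LinearMap.congr_fun Y.pr_sum (F v)
      rw [LinearMap.sum_apply, LinearMap.id_apply] at h2
      rw [← h2]
      exact Submodule.sum_mem _ fun i _ => hv i

end

end Pool.Agent.Helper81.RZ
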