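import Pool.Agent.Helper17.RZ.Sch.Dual

/-!
# Project RZ (MP_77656e_ag), the layer of schemes: morphisms of sheaves from maps of stalks (S3)
-/

set_option autoImplicit false

open AlgebraicGeometry CategoryTheory TopologicalSpace Opposite

namespace Pool.Agent.Helper81.RZ

open Pool.Agent.Helper17.RZ Pool.Agent.Helper17.RZ.Sch

universe u

noncomputable section

variable {k : Type u} [Field k] (X : CSch.{u} k)

theorem gm_ext (F : X.Z.Modules) (hF : IsVB F) (W : X.Z.Opens) (t t' : Γ(F, W))
    (ht : ∀ h : X.eta ∈ W, X.gm F _ h t = X.gm F _ h t') : t = t' := by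
  by_cases h : X.eta ∈ W
  · exact X.gm_injective F hF _ h (ht h)
  · have := subsingleton_of_empty F W (fun x hx => h (X.eta_mem hx))
    exact Subsingleton.elim _ _

/-- the morphism of sheaves with a given germ which preserves all sections -/
theorem mor_of_all (E F : X.Z.Modules) (hF : IsVB F) (φ : X.st E →ₗ[X.K] X.st F)
    (H : ∀ W : X.Z.Opens, ∀ v ∈ X.sec E W, φ v ∈ X.sec F W) :
    ∃ g : E ⟶ F, ∀ v, X.sm g v = φ v := by
  classical
  have hex : ∀ (W : X.Z.Opens) (s : Γ(E, W)), ∃ t : Γ(F, W),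
      ∀ h : X.eta ∈ W, X.gm F _ h t = φ (X.gm E _ h s) := by
    intro W s
    by_cases h : X.eta ∈ W
    · obtain ⟨t, ht⟩ := H _ _ (X.gm_mem_sec E _ h s) h
      exact ⟨t, fun _ => ht⟩
    · exact ⟨0, fun h' => absurd h' h⟩
  choose g hg using hex
  let ψ : ∀ W : X.Z.Opens, Γ(E, W) →+ Γ(F, W) := fun W =>
    { toFun := g W
      map_zero' := gm_ext X F hF W _ _ fun h => by rw [hg, map_zero, map_zero, map_zero]
      map_add' := fun s t => gm_ext X F hF W _ _ fun h => by
        rw [hg, map_add, map_add, map_add, hg, hg] }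
  have h0 : ∃ g' : E ⟶ F, ∀ (W : X.Z.Opens) (s : Γ(E, W)), g'.app W s = g W s := by
    refine ⟨⟨PresheafOfModules.homMk
      { app := fun W => AddCommGrpCat.ofHom (ψ W.unop)
        naturality := ?_ } ?_⟩, fun W s => rfl⟩
    · intro W₁ W₂ f
      ext s
      have hi : W₂.unop ≤ W₁.unop := leOfHom f.unop
      have key : ∀ s : Γ(E, W₁.unop), g W₂.unop (E.presheaf.map (homOfLE hi).op s) =
          F.presheaf.map (homOfLE hi).op (g W₁.unop s) := by
        intro s
        apply gm_ext X F hF
        intro h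
        rw [hg, X.gm_res E (hi h) hi h, X.gm_res F (hi h) hi h, hg]
      exact key s
    · intro W r m
      have key : ∀ (r : Γ(X.Z, W.unop)) (m : Γ(E, W.unop)),
          g W.unop (r • m) = r • g W.unop m := by
        intro r m
        apply gm_ext X F hF
        intro h
        rw [hg, X.gm_smul, X.gm_smul, hg, map_smul]
      exact key r m
  obtain ⟨g', hg'⟩ := h0
  refine ⟨g', fun v => ?_⟩
  obtain ⟨W, h, s, rfl⟩ := X.exists_gm E v
  rw [X.sm_gm, hg']
  exact hg W s h

/-- S3 -/
theorem morEx : MorEx.{u} := by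
  intro k _ X E F hE hF φ H
  apply mor_of_all X E F hF φ
  intro W v hv
  apply X.mem_sec_of_local F hF
  intro x hx
  obtain ⟨i, hi⟩ := X.cov x
  exact ⟨W ⊓ X.U i, ⟨hx, hi⟩, H i _ inf_le_right _ (X.sec_mono E inf_le_left hv)⟩

/-- a morphism of vector bundles with trivial germ is zero -/
theorem sm_eq_zero {E F : X.Z.Modules} (hF : IsVB F) (g : E ⟶ F) (h : ∀ v, X.sm g v = 0) : g = 0 := by
  apply Scheme.Modules.hom_ext
  intro W
  ext s
  have key : ∀ s : Γ(E, W), g.app W s = (0 : Γ(F, W)) := by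
    intro s
    apply gm_ext X F hF
    intro hW
    rw [← X.sm_gm, h, map_zero]
  exact key s

end

end Pool.Agent.Helper81.RZ
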